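import Mathlib
import Pool.Agent.V11259.MemLadderCo

/-!
# MP_4814b8: finite general memory for a condition and its complement, infinite chromatic memory

The witness is the ladder condition of `Pool.Agent.V11259.MemLadder`. For the complement the
strategy keeps one of three chains in memory, plays against the greatest winning level of the
chain at the current node, and makes progress by attractor ranks.
-/

namespace Pool.Agent.Results.MP_4814b8_lc.BothGeneral

open V11259.Mem

/-- **There are a finite set of colours and a winning condition `W` with `GenMem W < ∞` and
`GenMem Wᶜ < ∞` but `ChrMem W = ∞`.** -/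
theorem result : ∃ (C : Type) (_ : Finite C) (W : Set (ℕ → C)),
    genMem W < ⊤ ∧ genMem Wᶜ < ⊤ ∧ chrMem W = ⊤ :=
  ⟨Col, inferInstance, ladder, ladder_genMem, co_genMem, ladder_chrMem⟩

end Pool.Agent.Results.MP_4814b8_lc.BothGeneral
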